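import Mathlib
import Pool.Agent.V11131.CPMul

/-!
Complete Pick pairs are stable under multiplication of the second kernel: if `(k, l)` is a complete
Pick pair of kernels on `X` (not vanishing on the diagonal) and `h` is any kernel on `X` (not
vanishing on the diagonal), then `(k, l h)` is a complete Pick pair.

Proof. `(k, l)` has a Shimorin certificate `p[z]`: `l^z - p[z] l` and `p[z] k - k^z` are kernels.
The same `p[z]` is a certificate for `(k, l h)`, because
`(lh)^z - p[z] l h = (l^z - p[z] l) h + (l(x,z) l(z,y) / l(z,z)) h^z`.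
A certificate gives extensions of solutions of the Pick inequality by one point (Parrott), hence to
all finite sets, and by compactness to `X`.
-/

set_option autoImplicit false

namespace Pool.Agent.Results.MP_1a2443_an.StableUnderMultiplication

open scoped InnerProductSpace ComplexOrder ComplexConjugate
open Matrix
open Pool.Agent.Results.MP_e3a8c8_an.ShimorinCertificates (Kernel IsContractiveMultiplier IsCPPair
  pickMatrix)

universe u
variable {X : Type u}

/-- The block matrix `[l(z_i,z_j) I_N - k(z_i,z_j) W_i W_j^*]`, `i, j = 1, …, n`, as a scalar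
matrix of size `nN`. -/
noncomputable def blockMatrix {n N : ℕ} (k l : Kernel X) (z : Fin n → X)
    (W : Fin n → Matrix (Fin N) (Fin N) ℂ) : Matrix (Fin n × Fin N) (Fin n × Fin N) ℂ :=
  Matrix.of fun a b => (l.fn (z a.1) (z b.1) • (1 : Matrix (Fin N) (Fin N) ℂ)
    - k.fn (z a.1) (z b.1) • (W a.1 * (W b.1)ᴴ)) a.2 b.2

/-- `(k, l)` is a complete Pick pair: for all `n, N ≥ 1`, all `z_1, …, z_n ∈ X` and all
`W_1, …, W_n ∈ M_N` whose block matrix is positive semidefinite there is a contractive multiplier
`Φ` with `Φ(z_i) = W_i` for all `i`. -/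
def IsCompletePickPair (k l : Kernel X) : Prop :=
  ∀ n N : ℕ, 1 ≤ n → 1 ≤ N → ∀ (z : Fin n → X) (W : Fin n → Matrix (Fin N) (Fin N) ℂ),
    (blockMatrix k l z W).PosSemidef →
      ∃ Φ : X → Matrix (Fin N) (Fin N) ℂ, IsContractiveMultiplier k l Φ ∧ ∀ i, Φ (z i) = W i

/-- The pointwise product of two kernels (a kernel by the Schur product theorem). -/
noncomputable def Kernel.mul (l h : Kernel X) : Kernel X := ⟨l.fn ⊙ h.fn, l.psd.hadamard h.psd⟩

lemma cp_of_completePick {k l : Kernel X} (h : IsCompletePickPair k l) : IsCPPair k l := by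
  classical
  intro N hN F hF W hP
  let e := F.equivFin
  obtain ⟨Φ, hΦ1, hΦ2⟩ := h F.card N (Finset.card_pos.mpr hF) hN (fun i => (e.symm i : X))
    (fun i => W (e.symm i)) (by
      have := hP.submatrix (fun a : Fin F.card × Fin N => (e.symm a.1, a.2))
      exact this)
  refine ⟨Φ, hΦ1, fun x hx => ?_⟩
  have := hΦ2 (e ⟨x, hx⟩)
  simpa using this

/-- values at coinciding nodes coincide -/
lemma eq_of_same {n N : ℕ} {k l : Kernel X} {z : Fin n → X}
    {W : Fin n → Matrix (Fin N) (Fin N) ℂ} (hk : ∀ x, k.fn x x ≠ 0)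
    (hP : (blockMatrix k l z W).PosSemidef) {i j : Fin n} (hij : z i = z j) : W i = W j := by
  classical
  by_cases hne : i = j
  · rw [hne]
  have hkpos : 0 < (k.fn (z j) (z j)).re := by
    refine lt_of_le_of_ne (H770R3.Shim.psd_diag_re k.psd _) fun h0 => hk (z j) ?_
    rw [H770R3.Shim.psd_diag_eq k.psd (z j), ← h0]; simp
  have key : ∀ a : Fin N, (∑ c, Complex.normSq (W i a c - W j a c)) = 0 := by
    intro a
    have h1 := H770R3.Shim.psd_sum hP {(i, a), (j, a)}
      (fun q => if q = (i, a) then 1 else -1)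
    have hne' : ((i, a) : Fin n × Fin N) ≠ (j, a) := fun e => hne (congrArg Prod.fst e)
    rw [Finset.sum_pair hne', Finset.sum_pair hne', Finset.sum_pair hne'] at h1
    simp only [if_true, if_neg hne'.symm] at h1
    have h2 : ∀ p q : Fin n, z p = z j → z q = z j → blockMatrix k l z W (p, a) (q, a)
        = l.fn (z j) (z j) - k.fn (z j) (z j) * ∑ c, W p a c * conj (W q a c) := by
      intro p q hp hq
      simp only [blockMatrix, Matrix.of_apply, Matrix.sub_apply, Matrix.smul_apply, hp, hq,
        Matrix.one_apply_eq, smul_eq_mul, mul_one, Matrix.mul_apply, Matrix.conjTranspose_apply,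
        RCLike.star_def]
    rw [h2 i i hij hij, h2 i j hij rfl, h2 j i rfl hij, h2 j j rfl rfl] at h1
    have h3 : (conj (1 : ℂ) * (l.fn (z j) (z j) - k.fn (z j) (z j) * ∑ c, W i a c * conj (W i a c)) * 1
        + conj (1 : ℂ) * (l.fn (z j) (z j) - k.fn (z j) (z j) * ∑ c, W i a c * conj (W j a c)) * -1
        + (conj (-1 : ℂ) * (l.fn (z j) (z j) - k.fn (z j) (z j) * ∑ c, W j a c * conj (W i a c)) * 1
        + conj (-1 : ℂ) * (l.fn (z j) (z j) - k.fn (z j) (z j) * ∑ c, W j a c * conj (W j a c)) * -1))
        = -(k.fn (z j) (z j) * ((∑ c, Complex.normSq (W i a c - W j a c) : ℝ) : ℂ)) := by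
      have h4 : ((∑ c, Complex.normSq (W i a c - W j a c) : ℝ) : ℂ)
          = ∑ c, (W i a c * conj (W i a c) - W i a c * conj (W j a c)
            - W j a c * conj (W i a c) + W j a c * conj (W j a c)) := by
        push_cast
        refine Finset.sum_congr rfl fun c _ => ?_
        rw [← Complex.mul_conj, map_sub]
        ring
      rw [h4]
      simp only [Finset.sum_add_distrib, Finset.sum_sub_distrib, map_neg, map_one]
      ring
    rw [h3, Complex.neg_re, Complex.re_mul_ofReal] at h1
    have h5 : 0 ≤ ∑ c, Complex.normSq (W i a c - W j a c) :=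
      Finset.sum_nonneg fun c _ => Complex.normSq_nonneg _
    nlinarith
  ext a c
  have h1 := (Finset.sum_eq_zero_iff_of_nonneg
    (fun c _ => Complex.normSq_nonneg (W i a c - W j a c))).mp (key a) c (Finset.mem_univ c)
  exact sub_eq_zero.mp (Complex.normSq_eq_zero.mp h1)

lemma completePick_of_cp {k l : Kernel X} (hk : ∀ x, k.fn x x ≠ 0) (h : IsCPPair k l) :
    IsCompletePickPair k l := by
  classical
  intro n N hn hN z W hP
  obtain ⟨G, hG⟩ : ∃ G : Finset X, G = Finset.univ.image z := ⟨_, rfl⟩
  have hmem : ∀ i, z i ∈ G := fun i => hG ▸ Finset.mem_image_of_mem _ (Finset.mem_univ i)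
  have hsec : ∀ x : X, ∃ i : Fin n, x ∈ G → z i = x := by
    intro x
    by_cases hx : x ∈ G
    · rw [hG] at hx
      obtain ⟨i, _, hi⟩ := Finset.mem_image.mp hx
      exact ⟨i, fun _ => hi⟩
    · exact ⟨⟨0, hn⟩, fun h => absurd h hx⟩
  choose s hs using hsec
  obtain ⟨Φ, hΦ1, hΦ2⟩ := h N hN G ⟨z ⟨0, hn⟩, hmem _⟩ (fun x => W (s x)) (by
      have h1 := hP.submatrix (fun a : G × Fin N => (s (a.1 : X), a.2))
      have h2 : pickMatrix k l G (fun x => W (s x))
          = (blockMatrix k l z W).submatrix (fun a : G × Fin N => (s (a.1 : X), a.2))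
            (fun a : G × Fin N => (s (a.1 : X), a.2)) := by
        ext a b
        simp only [pickMatrix, blockMatrix, Matrix.of_apply, Matrix.submatrix_apply,
          hs _ a.1.2, hs _ b.1.2]
      rw [h2]
      exact h1)
  refine ⟨Φ, hΦ1, fun i => ?_⟩
  rw [hΦ2 (z i) (hmem i)]
  exact eq_of_same hk hP (hs (z i) (hmem i))

/-- Complete Pick pairs are stable under multiplication of the second kernel: for every non-empty
set `X`, every complete Pick pair `(k, l)` of kernels on `X` and every kernel `h` on `X` (all three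
without zeros on the diagonal), `(k, l h)` is a complete Pick pair. -/
theorem result (X : Type u) [Nonempty X] (k l h : Kernel X) (hk : ∀ x, k.fn x x ≠ 0)
    (hl : ∀ x, l.fn x x ≠ 0) (hh : ∀ x, h.fn x x ≠ 0) (hcp : IsCompletePickPair k l) :
    IsCompletePickPair k (Kernel.mul l h) :=
  completePick_of_cp hk (V11131.CPMul.cp_of_onePoint hk
    (V11131.CPMul.onePoint_mul hl (cp_of_completePick hcp) h hh))

end Pool.Agent.Results.MP_1a2443_an.StableUnderMultiplication
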